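import Pool.Agent.H.MP_46692b_an.D

set_option autoImplicit false
open MeasureTheory

namespace Pool.Agent.Results.MP_46692b_an.Main

theorem result (μ : Measure ℂ) [IsFiniteMeasure μ] (P : MvPolynomial (Fin 2) ℂ) (hP : Irreducible P)
    (h : ∀ᵐ z ∂(volume : Measure ℂ), MvPolynomial.eval ![z, ∫ ζ, (z - ζ)⁻¹ ∂μ] P = 0) :
    (volume : Measure ℂ) μ.support = 0 :=
  H.MP_46692b_an.main μ (hP.map (Polynomial.Bivariate.equivMvPolynomial ℂ).symm)
    (h.mono fun z hz => (H.MP_46692b_an.ev_eq P z _).trans hz)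

end Pool.Agent.Results.MP_46692b_an.Main
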